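import Pool.Agent.TH908.RD.Fin2

/-!
# Reductive operators with measurable local resolvents are normal (MP_49c4d9_an)

Let `T` be a reductive operator on a separable Hilbert space. Suppose that the vectors `x` with a
measurable local resolvent `f`, `(z - T) f z = x` for almost all `z ∈ ℂ`, with `‖f‖ ^ σ` locally
integrable for area, span a dense subspace, and the same for the adjoint of `T` (`σ > 0` fixed, as small
as one wants). Then `T` is normal. Nothing is supposed about the spectrum (it may have positive area and
interior), nor about compactness of the self-commutator.

Proof (`Pool.Agent.TH908.RD`, by several seats). For a closed set `K` let `P_K` be the projection onto the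
closed span of the vectors with local spectrum in `K`; it commutes with `T` and its adjoint, as `T` is
reductive. Outer functions on small generic circles (starting library `Pool.Agent.W610.HY`) show that
`x - P_K x` has no local spectrum in the interior of `K` if `x` has a measurable local resolvent. The
duality of the local spectral subspaces of `T` and its adjoint shows that for half-planes `P_K x` itself
has its local spectrum in `K`. So the half-planes give two commuting spectral families; let `A + i B` be
the normal operator with these spectral families. On the part of a vector that belongs to a square of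
side `ε` the subharmonicity of `‖F‖ ^ σ` and Cauchy's estimates give
`‖(T - c) ^ j E x‖ ≤ C ε ^ (j + 1 - 2 / σ)`, hence `(T - A - i B) ^ n = 0` for `n > 1 + 2 / σ`, and the
nilpotent part of a reductive operator vanishes.
-/

set_option autoImplicit false

open MeasureTheory Metric
open scoped ENNReal

namespace Pool.Agent.Results.MP_49c4d9_an.ReductiveLocalResolvents

variable {H : Type} [NormedAddCommGroup H] [InnerProductSpace ℂ H] [CompleteSpace H]

/-- `T` is reductive: every closed invariant subspace is invariant under the adjoint. -/
def Reductive (T : H →L[ℂ] H) : Prop :=
  ∀ V : Submodule ℂ H, IsClosed (V : Set H) → (∀ x ∈ V, T x ∈ V) →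
    ∀ x ∈ V, ContinuousLinearMap.adjoint T x ∈ V

/-- The vector `x` has a measurable local resolvent: `(z - T) f z = x` for almost all `z`, with
`‖f‖ ^ σ` integrable for area on every disc. -/
def HasLocalResolvent (T : H →L[ℂ] H) (σ : ℝ) (x : H) : Prop :=
  ∃ f : ℂ → H, AEStronglyMeasurable f volume ∧
    (∀ᵐ z ∂(volume : Measure ℂ), z • f z - T (f z) = x) ∧
    ∀ R : ℝ, ∫⁻ z in ball (0 : ℂ) R, ‖f z‖ₑ ^ σ ≠ ⊤

/-- **Theorem.** A reductive operator on a separable Hilbert space is normal if, for some `σ > 0`, the
vectors with a measurable local resolvent with locally integrable `σ`-th power span a dense subspace,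
for the operator and for its adjoint. -/
theorem result (H : Type) [NormedAddCommGroup H] [InnerProductSpace ℂ H] [CompleteSpace H]
    [TopologicalSpace.SeparableSpace H] (T : H →L[ℂ] H) (hred : Reductive T) (σ : ℝ) (hσ : 0 < σ)
    (h1 : (Submodule.span ℂ {x : H | HasLocalResolvent T σ x}).topologicalClosure = ⊤)
    (h2 : (Submodule.span ℂ {x : H |
      HasLocalResolvent (ContinuousLinearMap.adjoint T) σ x}).topologicalClosure = ⊤) :
    IsStarNormal T := by
  have key : ∀ S : H →L[ℂ] H,
      (Submodule.span ℂ {x : H | HasLocalResolvent S σ x}).topologicalClosure = ⊤ →
      (Submodule.span ℂ {x : H | Pool.Agent.TH908.RD.Good S (min σ 1) x}).topologicalClosure = ⊤ := by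
    intro S hS
    rw [eq_top_iff, ← hS]
    apply Submodule.topologicalClosure_mono
    apply Submodule.span_mono
    rintro x ⟨f, hf, he, hi⟩
    exact Pool.Agent.TH908.RD.Fin.good_of S σ hσ x f hf he hi
  exact Pool.Agent.TH908.RD.Fin2.det H T (min σ 1) (lt_min hσ one_pos) (min_le_right _ _) hred
    (key T h1) (key _ h2)

end Pool.Agent.Results.MP_49c4d9_an.ReductiveLocalResolvents
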