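import Pool.Agent.TH392.RM.L

/-!
# Reductive matrix-weighted translation operators are normal (MP_49c4d9_an)

Let `S` be an invertible ergodic measure-preserving transformation of a probability space `(X, μ)`
(countably generated σ-algebra) and `Φ` a bounded measurable `d × d` matrix function with `det Φ ≠ 0`
almost everywhere and `log |det Φ|` integrable.  If every closed invariant subspace of the operator
`(T f)(x) = Φ(x) f(S x)` on `L²(μ; ℂ^d)` reduces `T`, then `T` is normal.

For `d = 1` this is `ReductiveTranslations` (a starting file); there ergodicity alone makes the limit field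
scalar.  For `d ≥ 2` the operator may have reducing subspaces and its commutant may be large.

Outline of the proof.

(1) `Pool.Agent.TH392.RM.A`, `B`: an operator on `L²(μ; ℂ^d)` which commutes with all bounded scalar
multiplications (decomposable) is multiplication by a bounded measurable matrix function; if it commutes
with `T`, its characteristic polynomial is constant by ergodicity, so it is an algebraic operator.

(2) `Irr T`: no projection except `0`, `1` is decomposable and commutes with `T`.  Then the decomposable
operators commuting with `T` and `T*` are scalars (`E.lean`).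

(3) If `T` is reductive and some `B ≠ 0` commutes with `T` and `T*` and has degree `n ≥ 1` (`u^{-n} B` is
decomposable, `u` the Koopman unitary), then by (2) a multiple `V` of `B` is unitary, `T^n = V C` with `C`
decomposable, hence algebraic by (1), so `T` satisfies a monic polynomial equation over the commutative
C*-algebra of `V`, whose elements commute with `T`: such reductive operators are normal (`C.lean`; the last
step is the fibrewise argument of `AlgebraicModCompact`, a starting file).

(4) Aperiodic irreducible case (`F.lean`): along a subsequence the strong limits `Y θ` of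
`(1/k) log |exp (k e^{2πiθ} r T)|²` exist and are not almost everywhere one scalar (`H270R3.CT.fld`, starting
files); they commute with `T` and `T*` as `T` is reductive (`H158I.RW.t_R1`).  The Fourier coefficients `B_n`
of `θ ↦ Y θ` commute with `T`, `T*` and have degree `n`.  If `B_n ≠ 0` for some `n ≠ 0`, use (3) for `B_n`
or `B_n*`; otherwise `Y θ = B_0` is decomposable, so a scalar by (2), a contradiction.  If
`S^n` is trivial, (3) applies with `B = 1`.

(5) Reducible case (`G`, `H`, `I`, `K`): a decomposable projection commuting with `T` has constant rank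
`d' < d`; a measurable orthonormal frame identifies the compression of `T` with a matrix weighted translation
on `L²(μ; ℂ^{d'})` with the same lower bound, which is reductive again: induction on `d`.
-/

set_option autoImplicit false
open MeasureTheory

namespace Pool.Agent.Results.MP_49c4d9_an.ReductiveMatrixTranslations

/-- the Hilbert space `L²(μ; ℂ^d)` -/
abbrev L2 {X : Type} [MeasurableSpace X] (μ : Measure X) (d : ℕ) : Type :=
  Lp (EuclideanSpace ℂ (Fin d)) 2 μ

/-- the bounded operators on `L²(μ; ℂ^d)` -/
abbrev Op {X : Type} [MeasurableSpace X] (μ : Measure X) (d : ℕ) : Type := L2 μ d →L[ℂ] L2 μ d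

/-- the value `f(x)` of (a representative of) `f` -/
noncomputable def val {X : Type} [MeasurableSpace X] {μ : Measure X} {d : ℕ} (f : L2 μ d) (x : X) :
    EuclideanSpace ℂ (Fin d) := (f : X → EuclideanSpace ℂ (Fin d)) x

/-- every closed invariant subspace of `T` is invariant under the adjoint of `T` -/
def IsReductive {H : Type} [NormedAddCommGroup H] [InnerProductSpace ℂ H] [CompleteSpace H]
    (T : H →L[ℂ] H) : Prop :=
  ∀ V : Submodule ℂ H, IsClosed (V : Set H) → (∀ f ∈ V, T f ∈ V) →
    ∀ f ∈ V, ContinuousLinearMap.adjoint T f ∈ V

/-- the same for operators on `L²(μ; ℂ^d)` -/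
def Reductive {X : Type} [MeasurableSpace X] {μ : Measure X} {d : ℕ} (T : Op μ d) : Prop :=
  IsReductive T

/-- `T` commutes with its adjoint -/
def IsNormal {H : Type} [NormedAddCommGroup H] [InnerProductSpace ℂ H] [CompleteSpace H]
    (T : H →L[ℂ] H) : Prop :=
  ContinuousLinearMap.adjoint T * T = T * ContinuousLinearMap.adjoint T

/-- the same for operators on `L²(μ; ℂ^d)` -/
def Normal {X : Type} [MeasurableSpace X] {μ : Measure X} {d : ℕ} (T : Op μ d) : Prop :=
  IsNormal T

/-- `(T f)(x) = Φ(x) f(S x)` -/
def IsMatrixTranslation {X : Type} [MeasurableSpace X] {μ : Measure X} {d : ℕ}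
    (Φ : X → Matrix (Fin d) (Fin d) ℂ) (S : X → X) (T : Op μ d) : Prop :=
  ∀ f : L2 μ d, ∀ᵐ x ∂μ, ∀ i, val (T f) x i = ∑ j, Φ x i j * val f (S x) j

theorem result (X : Type) [MeasurableSpace X] [MeasurableSpace.CountablyGenerated X]
    (μ : Measure X) [IsProbabilityMeasure μ] (S : X ≃ᵐ X) (hS : Ergodic S μ) (d : ℕ)
    (Φ : X → Matrix (Fin d) (Fin d) ℂ) (hΦ : ∀ i j, Measurable fun x => Φ x i j)
    (hb : ∃ R : ℝ, ∀ x i j, ‖Φ x i j‖ ≤ R)
    (hdet : ∀ᵐ x ∂μ, (Φ x).det ≠ 0) (hi : Integrable (fun x => Real.log ‖(Φ x).det‖) μ)
    (T : Op μ d) (hT : IsMatrixTranslation Φ S T) (hr : Reductive T) : Normal T := by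
  obtain ⟨R, hR⟩ := hb
  exact (Pool.Agent.TH392.RM.normal_det hS hΦ hR hdet hi hT hr).star_comm_self.eq

end Pool.Agent.Results.MP_49c4d9_an.ReductiveMatrixTranslations
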