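import Pool.Agent.TH908.RD.Fin2

/-!
# Almost no diagonal perturbation is a counterexample to the reductive operator problem (MP_49c4d9_an)

Let `V x`, `x ∈ ℕ`, be independent complex (for instance real) random variables with
`E |V x - b|^(-σ) ≤ N` for all `x` and all `b ∈ ℂ` (`0 < σ ≤ 1`), and let `a` be a complex matrix with
`σ`-summable rows and columns whose off-diagonal sums `∑_{y ≠ x} |a x y|^σ`, `∑_{y ≠ x} |a y x|^σ` are
at most `κ` for all but finitely many `x`, `N κ < 1`. Let `T ω` be bounded operators on a Hilbert space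
with the matrix `a + diag V` in an orthonormal basis. Then for almost every `ω` the operator `T ω` is
normal if it is reductive. If `|a x y| ≠ |a y x|` for some `x`, `y` then almost surely `T ω` is not
reductive: it has an invariant subspace that does not reduce it.

Proof. The Aizenman-Molchanov method gives, as in the hand-in `RandomDiagonal` under MP_f981b0_an,
measurable local resolvents with locally integrable `σ`-th power of all vectors of the basis, for `T ω`
and its adjoint, and `ReductiveLocalResolvents` (same folder) applies. If `T ω` is normal the entry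
`(x, y)` of the self-commutator vanishes, which prescribes the value of `V x - V y` when
`|a x y| ≠ |a y x|`; this difference has no atoms.
-/

set_option autoImplicit false

open MeasureTheory
open scoped ENNReal NNReal

namespace Pool.Agent.Results.MP_49c4d9_an.ReductiveRandomDiagonal

/-- `T` is reductive: every closed invariant subspace is invariant under the adjoint. -/
def Reductive {H : Type} [NormedAddCommGroup H] [InnerProductSpace ℂ H] [CompleteSpace H]
    (T : H →L[ℂ] H) : Prop :=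
  ∀ V : Submodule ℂ H, IsClosed (V : Set H) → (∀ x ∈ V, T x ∈ V) →
    ∀ x ∈ V, ContinuousLinearMap.adjoint T x ∈ V

/-- The random variables `V x` are independent and `E |V x - b|^(-σ) ≤ N` for all `x` and all complex
numbers `b`. -/
def Regular {Ω : Type} [MeasurableSpace Ω] (P : Measure Ω) (V : ℕ → Ω → ℂ) (σ : ℝ) (N : ℝ≥0) :
    Prop :=
  (∀ x, Measurable (V x)) ∧ ProbabilityTheory.iIndepFun V P ∧
    ∀ (x : ℕ) (b : ℂ), ∫⁻ ω, (‖V x ω - b‖ₑ⁻¹) ^ σ ∂P ≤ N

/-- All rows and columns of the matrix `a` are `σ`-summable, and the off-diagonal sums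
`∑_{y ≠ x} |a x y|^σ` and `∑_{y ≠ x} |a y x|^σ` are at most `κ` for all but finitely many `x`. -/
def OffDiagonal (a : ℕ → ℕ → ℂ) (σ : ℝ) (κ : ℝ≥0) : Prop :=
  (∀ x, ∑' y, ‖a x y‖ₑ ^ σ ≠ ⊤) ∧ (∀ y, ∑' x, ‖a x y‖ₑ ^ σ ≠ ⊤) ∧
    ∃ F : Finset ℕ, ∀ x, x ∉ F → ∑' y, (if y = x then 0 else ‖a x y‖ₑ ^ σ) ≤ κ ∧
      ∑' y, (if y = x then 0 else ‖a y x‖ₑ ^ σ) ≤ κ

/-- The operator `T` has the matrix `a + diag v` in the orthonormal basis `b`. -/
def HasMatrix {H : Type} [NormedAddCommGroup H] [InnerProductSpace ℂ H] [CompleteSpace H]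
    (b : HilbertBasis ℕ ℂ H) (T : H →L[ℂ] H) (a : ℕ → ℕ → ℂ) (v : ℕ → ℂ) : Prop :=
  ∀ (f : H) (x : ℕ), inner ℂ (b x) (T f) = ∑' y, a x y * inner ℂ (b y) f + v x * inner ℂ (b x) f

/-- **Theorem.** Under the above hypotheses almost every `T ω` is normal if it is reductive, and almost
every `T ω` is not reductive if `‖a x y‖ ≠ ‖a y x‖` for some `x` and `y`. -/
theorem result (H : Type) [NormedAddCommGroup H] [InnerProductSpace ℂ H] [CompleteSpace H]
    (b : HilbertBasis ℕ ℂ H)
    (Ω : Type) [MeasurableSpace Ω] (P : Measure Ω) [IsProbabilityMeasure P]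
    (V : ℕ → Ω → ℂ) (σ : ℝ) (hσ : 0 < σ) (hσ1 : σ ≤ 1) (N κ : ℝ≥0) (hV : Regular P V σ N)
    (a : ℕ → ℕ → ℂ) (ha : OffDiagonal a σ κ) (hNκ : N * κ < 1)
    (T : Ω → (H →L[ℂ] H)) (hT : ∀ᵐ ω ∂P, HasMatrix b (T ω) a (fun x => V x ω)) :
    (∀ᵐ ω ∂P, Reductive (T ω) → IsStarNormal (T ω)) ∧
      ((∃ x y, ‖a x y‖ ≠ ‖a y x‖) → ∀ᵐ ω ∂P, ¬ Reductive (T ω)) := by
  obtain ⟨hr, hc, F, hF⟩ := ha
  exact Pool.Agent.TH908.RD.Fin2.random b Ω P V hV.1 hV.2.1 σ hσ hσ1 N κ hV.2.2 a hr hc F hF hNκ T hT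

end Pool.Agent.Results.MP_49c4d9_an.ReductiveRandomDiagonal
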