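import Pool.Agent.TH322.RR.Mat

/-!
# Reductive operators in random families with algebraic coefficients

Let the countable group `G` act ergodically on a probability space `(Ω, P)`; assume that the action is
sofic (it has finite models) or that `G` is amenable.  Let `F ⊆ G` be finite and let `A g : Ω → M_d(ℂ)`,
`g ∈ F`, be measurable with finitely many values, whose entries are algebraic numbers.  Let `T ω` be the operator
`(T ω f)(i) = ∑ g ∈ F, A g (i⁻¹ ω) f(i g)` on `ℓ²(G; ℂ^d)`: for instance a non-selfadjoint random operator of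
Bernoulli-Anderson type with rational entries, or the adjacency operator of a random directed graph.

(1) Algebraicity.  If the spectrum of `T ω` has logarithmic capacity zero for all `ω` in a set of positive
outer measure (for instance: if it is countable there), then a nonzero polynomial `Q` has `Q (T ω) = 0` for
almost every `ω`.

(2) Reductive operators.  Either `T ω` is normal for almost every `ω`, or for almost every `ω` it is not a
reductive operator whose spectrum is countable or has capacity zero, or whose von Neumann algebra is a factor.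
In short: almost every reductive `T ω` of one of these three kinds is normal.  (For general operators even the
case of a spectrum with one point is open.)

Proof.  (1) After `G` is replaced by `G × ℤ/d` we may assume `d = 1`, and after multiplication by an integer
the coefficients lie in the ring of integers of a number field.  Let `T_v ω` be the conjugate families, for the
places `v | ∞`.  By the pigeonhole principle, for every `κ` there are a nonzero integral polynomial `p` and
`B > 1` such that `‖p (T_v ω)‖ ≤ B` for all `v`, `ω`, and `|p| < B^(-κ)` on the spectrum of `T ω`, for `ω` in a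
set of positive outer measure (there are countably many pairs `(p, B)`).  The norm of `p(T ω)^k` is a
measurable invariant function of `ω`, hence constant, so the product over all places of the norms is
smaller than one for some power `k`.  But this covariant field and its conjugates are limits, in moments and
simultaneously for all places, of matrices with integral coefficients (compressions to Følner sets, or finite
models of the action); the product of the nonzero singular values of such a matrix, over all places, is at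
least one.  So the ranks are `o(n)`, and `p(T ω)^k = 0` for almost every `ω`.

(2) A reductive operator which is algebraic is normal (elementary and known); normality satisfies a zero-one
law.  For factors: `T ω` is scalar for almost every `ω` or has a nontrivial hyperinvariant subspace for almost
every `ω` (`Pool.Agent.Results.MP_f981b0_an.AlgebraicCoefficients`, helpers 322 and 315); if `T ω` is
reductive, the projection onto it belongs to the center of the von Neumann algebra generated by `T ω`.

The pigeonhole argument and the finite dimensional estimates (`Pool.Agent.TH315.CZ`), and the sofic models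
(`Pool.Agent.TH315.SO`), are due to helper315, who proved the case of group rings.
-/

set_option autoImplicit false
open MeasureTheory

namespace Pool.Agent.Results.MP_49c4d9_an.ReductiveRandomFamilies

/-- the Hilbert space `ℓ²(G; ℂ^d)`: the square summable complex functions on `G × {0, …, d - 1}` -/
abbrev L2 (G : Type) (d : ℕ) : Type := lp (fun _ : G × Fin d => ℂ) 2

/-- the bounded operators on `ℓ²(G; ℂ^d)` -/
abbrev Op (G : Type) (d : ℕ) : Type := L2 G d →L[ℂ] L2 G d

/-- `G` acts on the probability space `(Ω, P)` by measure-preserving maps, and every measurable set which is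
invariant under all of them has probability zero or one -/
structure ErgodicAction (G : Type) {Ω : Type} [Group G] [MeasurableSpace Ω] [MulAction G Ω]
    (P : Measure Ω) : Prop where
  preserving : ∀ g : G, MeasurePreserving (fun ω : Ω => g • ω) P P
  ergodic : ∀ B : Set Ω, MeasurableSet B → (∀ g : G, (fun ω : Ω => g • ω) ⁻¹' B = B) →
    P B = 0 ∨ P Bᶜ = 0

/-- sofic actions: for all finite `K ⊆ G`, finite families `𝒜` of measurable sets and `ε > 0` there are
`n ≥ 1`, permutations `s g` of `{0, …, n - 1}` and points `θ x ∈ Ω`, `x < n`, such that: for `g, h ∈ K` at most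
`ε n` points `x` have `s (g h) x ≠ s g (s h x)`; for `g ∈ K`, `g ≠ 1`, at most `ε n` points have `s g x = x`;
for `g ∈ K` and `A ∈ 𝒜` at most `ε n` of the `x` violate `θ (s g x) ∈ A ↔ g • θ x ∈ A`; and the number of the
`x` with `θ x ∈ A` differs from `n P(A)` by at most `ε n` -/
def SoficAction (G : Type) {Ω : Type} [Group G] [MulAction G Ω] [MeasurableSpace Ω] (P : Measure Ω) :
    Prop :=
  ∀ (K : Finset G) (𝒜 : Finset (Set Ω)) (ε : ℝ), (∀ A ∈ 𝒜, MeasurableSet A) → 0 < ε →
    ∃ (n : ℕ) (s : G → Equiv.Perm (Fin n)) (θ : Fin n → Ω), 0 < n ∧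
      (∀ g ∈ K, ∀ h ∈ K, (({x | s (g * h) x ≠ s g (s h x)}.ncard : ℕ) : ℝ) ≤ ε * n) ∧
      (∀ g ∈ K, g ≠ 1 → (({x | s g x = x}.ncard : ℕ) : ℝ) ≤ ε * n) ∧
      (∀ g ∈ K, ∀ A ∈ 𝒜, (({x | ¬ (θ (s g x) ∈ A ↔ g • θ x ∈ A)}.ncard : ℕ) : ℝ) ≤ ε * n) ∧
      (∀ A ∈ 𝒜, |(({x | θ x ∈ A}.ncard : ℕ) : ℝ) - n * P.real A| ≤ ε * n)

/-- Følner's condition: for every finite `K ⊆ G` and `ε > 0` there is a finite nonempty `S ⊆ G` such that
for each `g ∈ K` at most `ε |S|` elements `i` of `S` have `i g ∉ S` -/
def AmenableGroup (G : Type) [Group G] : Prop :=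
  ∀ (K : Finset G) (ε : ℝ), 0 < ε → ∃ S : Finset G, S.Nonempty ∧
    ∀ g ∈ K, (({i : G | i ∈ S ∧ i * g ∉ S}.ncard : ℕ) : ℝ) ≤ ε * (S.card : ℝ)

/-- the matrix entries of the coefficients are measurable functions with finitely many values, which are
algebraic numbers -/
structure AlgebraicValued {G Ω : Type} [MeasurableSpace Ω] {d : ℕ}
    (A : G → Ω → Matrix (Fin d) (Fin d) ℂ) : Prop where
  measurable : ∀ g k l, Measurable fun ω => A g ω k l
  finite : ∀ g k l, (Set.range fun ω => A g ω k l).Finite
  algebraic : ∀ g ω k l, IsAlgebraic ℚ (A g ω k l)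

/-- the operators `(T ω f)(i) = ∑ g ∈ F, A g (i⁻¹ ω) f(i g)` on `ℓ²(G; ℂ^d)` -/
def IsFamily {G Ω : Type} [Group G] [MulAction G Ω] {d : ℕ} (F : Finset G)
    (A : G → Ω → Matrix (Fin d) (Fin d) ℂ) (T : Ω → Op G d) : Prop :=
  ∀ (ω : Ω) (f : L2 G d) (i : G) (k : Fin d), (T ω f : G × Fin d → ℂ) (i, k)
    = ∑ g ∈ F, ∑ l, A g (i⁻¹ • ω) k l * (f : G × Fin d → ℂ) (i * g, l)

/-- every closed invariant subspace of `T` is reducing: its orthogonal complement is invariant too -/
def Reductive {H : Type} [NormedAddCommGroup H] [InnerProductSpace ℂ H] (T : H →L[ℂ] H) : Prop :=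
  ∀ V : Submodule ℂ H, IsClosed (V : Set H) → (∀ x ∈ V, T x ∈ V) → ∀ x ∈ Vᗮ, T x ∈ Vᗮ

/-- logarithmic capacity zero, for compact sets: for every `ε > 0` there is a monic polynomial `p` of positive
degree with `|p| ≤ ε ^ deg p` on `E` -/
def CapacityZero (E : Set ℂ) : Prop :=
  ∀ ε : ℝ, 0 < ε → ∃ p : Polynomial ℂ, p.Monic ∧ 1 ≤ p.natDegree ∧
    ∀ z ∈ E, ‖p.eval z‖ ≤ ε ^ p.natDegree

/-- `R` commutes with `T` and with `T*` -/
def DoublyCommute {H : Type} [NormedAddCommGroup H] [InnerProductSpace ℂ H] [CompleteSpace H]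
    (R T : H →L[ℂ] H) : Prop := Commute R T ∧ Commute R (star T)

/-- the von Neumann algebra generated by `T` is a factor: the operators `Z` in its center, that is, commuting
with `T`, `T*` and all operators which commute with `T` and `T*`, are the scalars -/
def GeneratesFactor {H : Type} [NormedAddCommGroup H] [InnerProductSpace ℂ H] [CompleteSpace H]
    (T : H →L[ℂ] H) : Prop :=
  ∀ Z : H →L[ℂ] H, DoublyCommute Z T → (∀ R : H →L[ℂ] H, DoublyCommute R T → Commute Z R) →
    ∃ c : ℂ, Z = c • 1

/-- the spectrum of `T` is countable or of capacity zero -/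
def SmallSpectrum {H : Type} [NormedAddCommGroup H] [InnerProductSpace ℂ H] [CompleteSpace H]
    (T : H →L[ℂ] H) : Prop :=
  (spectrum ℂ T).Countable ∨ CapacityZero (spectrum ℂ T)

/-- `T* T = T T*` -/
def Normal {H : Type} [NormedAddCommGroup H] [InnerProductSpace ℂ H] [CompleteSpace H]
    (T : H →L[ℂ] H) : Prop := star T * T = T * star T

/-- `Q(T) = 0` -/
def Annihilates {H : Type} [NormedAddCommGroup H] [InnerProductSpace ℂ H] [CompleteSpace H]
    (Q : Polynomial ℂ) (T : H →L[ℂ] H) : Prop := Polynomial.aeval T Q = 0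

/-- normal operators on `ℓ²(G; ℂ^d)` -/
def NormalOp {G : Type} {d : ℕ} (T : Op G d) : Prop := Normal T

/-- reductive operators on `ℓ²(G; ℂ^d)` whose spectrum is countable or has capacity zero, or which generate
a factor -/
def SpecialReductive {G : Type} {d : ℕ} (T : Op G d) : Prop :=
  Reductive T ∧ (SmallSpectrum T ∨ GeneratesFactor T)

/-- the spectrum of `T` is countable or of capacity zero for all `ω` in a set of positive outer measure -/
def OftenSmallSpectrum {G Ω : Type} [MeasurableSpace Ω] {d : ℕ} (P : Measure Ω) (T : Ω → Op G d) : Prop :=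
  P {ω | SmallSpectrum (T ω)} ≠ 0

/-- a polynomial `Q ≠ 0` has `Q(T ω) = 0` for almost every `ω` -/
def AlmostSurelyAlgebraic {G Ω : Type} [MeasurableSpace Ω] {d : ℕ} (P : Measure Ω) (T : Ω → Op G d) :
    Prop :=
  ∃ Q : Polynomial ℂ, Q ≠ 0 ∧ ∀ᵐ ω ∂P, Annihilates Q (T ω)

/-- compact countable sets have capacity zero -/
theorem capacityZero_of_countable {E : Set ℂ} (hE : IsCompact E) (hc : E.Countable) :
    CapacityZero E :=
  Pool.Agent.TH315.CZ.capZero_of_countable hE hc

theorem result (G Ω : Type) [Group G] [Countable G] [MeasurableSpace Ω] [MulAction G Ω]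
    (P : Measure Ω) [IsProbabilityMeasure P] (hP : ErgodicAction G P)
    (hG : SoficAction G P ∨ AmenableGroup G)
    (d : ℕ) (hd : 1 ≤ d) (F : Finset G) (A : G → Ω → Matrix (Fin d) (Fin d) ℂ)
    (hA : AlgebraicValued A) :
    (∃ T : Ω → Op G d, IsFamily F A T) ∧ ∀ T : Ω → Op G d, IsFamily F A T →
      ((∀ᵐ ω ∂P, NormalOp (T ω)) ∨ ∀ᵐ ω ∂P, ¬ SpecialReductive (T ω)) ∧
      (OftenSmallSpectrum P T → AlmostSurelyAlgebraic P T) := by
  classical
  have : NeZero d := ⟨by omega⟩
  have hFol : AmenableGroup G → Pool.Agent.TH322.AC.Fol G := by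
    intro hG K ε hε
    obtain ⟨S, hS, h⟩ := hG K ε hε
    refine ⟨S, hS, fun g hg => ?_⟩
    have h1 := h g hg
    have h2 : {i : G | i ∈ S ∧ i * g ∉ S}
        = ((S.filter fun i => i * g ∉ S : Finset G) : Set G) := by
      ext i
      simp
    rw [h2, Set.ncard_coe_finset] at h1
    exact h1
  have hG' : Pool.Agent.TH315.SO.SofAct G P ∨ Pool.Agent.TH322.AC.Fol G :=
    hG.imp (fun h => h) hFol
  -- hyperinvariant subspaces
  have hhyp : ∃ T : Ω → (Pool.Agent.W611.RO.L2 (G × Fin d) →L[ℂ] Pool.Agent.W611.RO.L2 (G × Fin d)),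
      (∀ (ω : Ω) (f : Pool.Agent.W611.RO.L2 (G × Fin d)) (i : G) (k : Fin d),
        (T ω f : G × Fin d → ℂ) (i, k)
          = ∑ g ∈ F, ∑ l, A g (i⁻¹ • ω) k l * (f : G × Fin d → ℂ) (i * g, l)) ∧
      ((∃ c : ℂ, ∀ᵐ ω ∂P, T ω = c • 1) ∨ ∀ᵐ ω ∂P, Pool.Agent.W611.RO.HasHyp (T ω)) := by
    rcases hG' with hS | hF
    · exact Pool.Agent.TH315.SO.t_MATS G Ω P ⟨hP.preserving, hP.ergodic⟩ hS d F A
        hA.measurable hA.finite hA.algebraic
    · exact Pool.Agent.TH322.AC.t_MAT G Ω P ⟨hP.preserving, hP.ergodic⟩ hF d F A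
        hA.measurable hA.finite hA.algebraic
  obtain ⟨T₁, hT₁, h₁⟩ := hhyp
  obtain ⟨T₂, hT₂, h₂, h₃⟩ := Pool.Agent.TH322.RR.t_CAPMAT G Ω P ⟨hP.preserving, hP.ergodic⟩ hG' d F A
    hA.measurable hA.finite hA.algebraic
  refine ⟨⟨T₂, hT₂⟩, fun T hT => ?_⟩
  have e₁ : T₁ = T := by
    funext ω
    refine ContinuousLinearMap.ext fun f => lp.ext (funext fun x => ?_)
    obtain ⟨i, k⟩ := x
    rw [hT₁ ω f i k, hT ω f i k]
  have e₂ : T₂ = T := by
    funext ω
    refine ContinuousLinearMap.ext fun f => lp.ext (funext fun x => ?_)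
    obtain ⟨i, k⟩ := x
    rw [hT₂ ω f i k, hT ω f i k]
  subst e₁
  subst e₂
  have hred : ∀ ω, Reductive (T₂ ω) → Pool.Agent.TH315.CZ.Red (T₂ ω) := by
    intro ω hω V hV hTV x hx
    have : CompleteSpace V := hV.completeSpace_coe
    have h1 := hω V hV hTV
    rw [← Submodule.orthogonal_orthogonal V, Submodule.mem_orthogonal]
    intro u hu
    rw [ContinuousLinearMap.star_eq_adjoint, ContinuousLinearMap.adjoint_inner_right]
    exact Submodule.inner_left_of_mem_orthogonal hx (h1 u hu)
  have hcc : ∀ ω, SmallSpectrum (T₂ ω) →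
      Pool.Agent.TH315.CZ.CapZero (spectrum ℂ (T₂ ω)) := by
    intro ω hω
    rcases hω with h | h
    · exact capacityZero_of_countable (spectrum.isCompact (T₂ ω)) h
    · exact h
  refine ⟨?_, fun hS => h₂ _ hS fun ω hω => hcc ω hω⟩
  rcases h₃ with h₃ | h₃
  · left
    filter_upwards [h₃] with ω hω
    exact hω.star_comm_self
  · right
    -- the small spectra
    have hsmall : ∀ᵐ ω ∂P, ¬ (Reductive (T₂ ω) ∧ SmallSpectrum (T₂ ω)) := by
      by_cases hP0 : P {ω | SmallSpectrum (T₂ ω)} = 0
      · have h4 : ∀ᵐ ω ∂P, ¬ SmallSpectrum (T₂ ω) := by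
          rw [ae_iff]
          simp only [not_not]
          exact hP0
        filter_upwards [h4] with ω hω h5
        exact hω h5.2
      · obtain ⟨Q, hQ0, hQ⟩ := h₂ _ hP0 fun ω hω => hcc ω hω
        filter_upwards [h₃, hQ] with ω h4 h5 h6
        exact h4 (Pool.Agent.TH315.CZ.normal_of_algebraic (hred ω h6.1) hQ0 h5)
    -- the factors
    have hfac : ∀ᵐ ω ∂P, ¬ (Reductive (T₂ ω) ∧ GeneratesFactor (T₂ ω)) := by
      rcases h₁ with ⟨c, hc⟩ | h₁
      · filter_upwards [hc, h₃] with ω h4 h5
        exfalso
        apply h5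
        rw [h4]
        infer_instance
      · filter_upwards [h₁] with ω h4 h5
        obtain ⟨V, hV, e1, e2, e3⟩ := h4
        rcases Pool.Agent.TH315.CZ.no_hyp (hred ω h5.1)
          (fun Z f1 f2 f3 => h5.2 Z ⟨f2, f3⟩ (fun R hR => f1 R hR.1 hR.2))
          V hV (fun R hR x hx => e3 R hR x hx) with h6 | h6
        · exact e1 h6
        · exact e2 h6
    filter_upwards [hsmall, hfac] with ω h4 h5 h6
    rcases h6.2 with h7 | h7
    · exact h4 ⟨h6.1, h7⟩
    · exact h5 ⟨h6.1, h7⟩

end Pool.Agent.Results.MP_49c4d9_an.ReductiveRandomFamilies
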